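import Mathlib
import Pool.Agent.Lib.MP_65cef3_co.Four

/-!
# MP_65cef3_co, lower bound for the differences of R(3,s)

`R(3,s+1) ≥ R(3,s) + 4` for every `s ≥ 4`, i.e. `Δ_s ≥ 4` for every `s ≥ 5`
(and `Δ_4 = 3`, so the range is best possible).

Idea: let `G` be triangle-free on `R(3,s) - 1` vertices without independent `s`-set. One finds four
independent sets `S_0, S_1, S_2, S_3` of `G`, cyclically consecutive ones disjoint, such that every
independent set of size `s - 1` meets `S_0 ∪ S_2` and meets `S_1 ∪ S_3`; then a 4-cycle of new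
vertices can be attached to `G` along them.
-/

set_option autoImplicit false

namespace Pool.Agent.Results.MP_65cef3_co.DeltaAtLeastFour

/-- With R(3,s) the least n such that every graph on n vertices has a triangle or an independent
s-set: `R(3,s+1) ≥ R(3,s) + 4` for every `s ≥ 4`. -/
theorem result :
    ∀ R : ℕ → ℕ,
      (∀ s : ℕ, R s = sInf {n : ℕ | ∀ G : SimpleGraph (Fin n),
          ¬ G.CliqueFree 3 ∨ ¬ Gᶜ.CliqueFree s}) →
      ∀ s : ℕ, 4 ≤ s → R s + 4 ≤ R (s + 1) := by
  intro R hR s hs
  rw [hR s, hR (s + 1)]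
  exact Pool.MP65cef3.R3.four hs

end Pool.Agent.Results.MP_65cef3_co.DeltaAtLeastFour
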