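import Mathlib
import Pool.Agent.Lib.MP_65cef3_co.Plus

/-!
# MP_65cef3_co, windows of consecutive differences of R(3,s)

`R(3,s+k) ≥ R(3,s) + R(3,k+1) + k`, i.e. `Δ_{s+1} + ... + Δ_{s+k} ≥ R(3,k+1) + k`, for all `k ≥ 1`
and all `s ≥ 4k + 64` (more generally whenever `s ≥ 4` and `R(3,s) + 3 ≥ 4s + R(3,k-1)`).

Idea: let `G` be extremal for `R(3,s)` and let `H` be extremal for `R(3,k+1)` and edge-critical.
Then `H` has `k+1` vertices spanning exactly one edge `hw`. All of them are doubled in `H`; the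
two copies of `h` and of `w` are joined to the four sets of `DeltaAtLeastFour` in `G`, the two copies
of each of the other `k-1` vertices to `N(u)` and `{u}` for a vertex `u` of `G`, these vertices `u`
being independent and outside the four sets.
-/

set_option autoImplicit false

namespace Pool.Agent.Results.MP_65cef3_co.GeneralWindow

/-- With R(3,s) the least n such that every graph on n vertices has a triangle or an independent
s-set: `R(3,s+k) ≥ R(3,s) + R(3,k+1) + k` for all `k ≥ 1` and `s ≥ 4` with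
`R(3,s) + 3 ≥ 4s + R(3,k-1)` or `s ≥ 4k + 64`. -/
theorem result :
    ∀ R : ℕ → ℕ,
      (∀ s : ℕ, R s = sInf {n : ℕ | ∀ G : SimpleGraph (Fin n),
          ¬ G.CliqueFree 3 ∨ ¬ Gᶜ.CliqueFree s}) →
      ∀ s k : ℕ, 1 ≤ k → 4 ≤ s → (4 * s + R (k - 1) ≤ R s + 3 ∨ 4 * k + 64 ≤ s) →
        R s + R (k + 1) + k ≤ R (s + k) := by
  intro R hR s k hk hs h
  rw [hR s, hR (k - 1)] at h
  rw [hR s, hR (k + 1), hR (s + k)]
  rcases h with h | h
  · exact Pool.MP65cef3.R3.plus hs hk h
  · exact Pool.MP65cef3.R3.plus' hk h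

end Pool.Agent.Results.MP_65cef3_co.GeneralWindow
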