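import Mathlib
import Pool.Agent.Lib.MP_65cef3_co.Four
import Pool.Agent.Lib.MP_65cef3_co.UpG
import Pool.Agent.Lib.MP_65cef3_co.UW.Window

/-!
# MP_65cef3_co, upper bounds for sums of consecutive differences of R(3,s)

With `Δ_s = R(3,s) - R(3,s-1)`: `Δ_s + Δ_(s-1) ≤ 2s - (1-o(1)) log s`, for windows of `k`
consecutive differences, `k = o(R(3,s)/s)`, the bound `k s - (1-o(1)) (k choose 2) log s`, and an
exact inequality for all `s` and `k < s` from which both follow by Shearer's bound for `R(3,s)`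
(proved in the files). A second exact inequality is better for `k s` of the order of `R(3,s)`.

Idea: let `G` be triangle-free on `n = R(3,s) - 1` vertices without independent `s`-set. If
`v_1,..,v_k` are independent then at least `n + 1 - R(3,s-k)` vertices lie in the union of the
closed neighbourhoods `N[v_i]`. The vertices are chosen one after the other; the average over
`v ∈ W`, weighted by `|W - N[v]|`, of the degree of `v` and of the average degree of `G[W - N[v]]`
is controlled by the average degree of `G[W]` (each neighbourhood is independent, so removing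
`N[v]` removes exactly `∑_(w ∈ N(v)) d(w)` edges).
-/

set_option autoImplicit false

namespace Pool.Agent.Results.MP_65cef3_co.UpperWindow

open Pool.MP65cef3.R3 Pool.MP65cef3.UW

/-- Upper bounds for `Δ_s + Δ_(s-1)`, for two consecutive drops and for windows of `k`
consecutive differences of `R(3,s)`. -/
theorem result :
    ∀ R : ℕ → ℕ,
      (∀ s : ℕ, R s = sInf {n : ℕ | ∀ G : SimpleGraph (Fin n),
          ¬ G.CliqueFree 3 ∨ ¬ Gᶜ.CliqueFree s}) →
      ∀ Δ : ℕ → ℝ, (∀ s : ℕ, 2 ≤ s → Δ s = (R s : ℝ) - R (s - 1)) →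
        (∀ s k : ℕ, 3 ≤ s → k < s →
          (R s : ℝ) - R (s - k) ≤ k * s
            - (k.choose 2 : ℝ) * (s - 1) * (s - 2) / (R s - 1)
            + (k.choose 3 : ℝ) * (s - 1) * (2 * s - 3) ^ 2 / (R s - 1) ^ 2) ∧
        (∀ s k : ℕ, 1 ≤ k → k ≤ s → 2 * k * s ≤ R s →
          (R s : ℝ) - R (s - k)
            ≤ k * s - k * (k - 1) * ((s : ℝ) ^ 2 / (2 * R s) * (1 - k * s / R s) - 3 / 2)) ∧
        (∀ δ : ℝ, 0 < δ → δ < 1 → ∃ s₀ : ℕ, 4 ≤ s₀ ∧ ∀ s : ℕ, s₀ ≤ s →
          Δ s + Δ (s - 1) ≤ 2 * s - (1 - δ) * Real.log s ∧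
          (Δ (s - 1) - Δ s) + 2 * (Δ s - Δ (s + 1)) ≤ 2 * s - 8 - (1 - δ) * Real.log s ∧
          ∀ k : ℕ, (k : ℝ) * s ≤ δ / 8 * R s →
            (R s : ℝ) - R (s - k) ≤ k * s - (1 - δ) * (k.choose 2 : ℝ) * Real.log s) := by
  intro R hR Δ hΔ
  have hRr : ∀ s, R s = Rr s := hR
  refine ⟨?_, ?_, ?_⟩
  · intro s k hs hk
    rw [hRr s, hRr (s - k)]
    exact window hs hk
  · intro s k hk hks h
    rw [hR s] at h
    rw [hR s, hR (s - k)]
    exact Pool.MP65cef3.R3.window' hk hks h
  · intro δ h0 h1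
    obtain ⟨s1, h31, hs1⟩ := two h0 h1
    obtain ⟨s2, hs2⟩ := windows h0 h1
    refine ⟨max (max s1 s2) 4, le_max_right _ _, ?_⟩
    intro s hs
    have h4 : 4 ≤ s := le_trans (le_max_right _ _) hs
    have hss1 : s1 ≤ s := le_trans (le_trans (le_max_left _ _) (le_max_left _ _)) hs
    have hss2 : s2 ≤ s := le_trans (le_trans (le_max_right _ _) (le_max_left _ _)) hs
    have hA : Δ s + Δ (s - 1) ≤ 2 * s - (1 - δ) * Real.log s := by
      have h := hs1 s hss1
      rw [hΔ s (by omega), hΔ (s - 1) (by omega), hRr s, hRr (s - 1)]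
      have h2 : s - 1 - 1 = s - 2 := by omega
      rw [h2, hRr (s - 2)]
      linarith
    refine ⟨hA, ?_, ?_⟩
    · have h2 : Rr s + 4 ≤ Rr (s + 1) := four h4
      have h3 : (Rr s : ℝ) + 4 ≤ Rr (s + 1) := by exact_mod_cast h2
      have h5 : Δ (s + 1) = (Rr (s + 1) : ℝ) - Rr s := by
        rw [hΔ (s + 1) (by omega), hRr (s + 1), Nat.add_sub_cancel, hRr s]
      linarith
    · intro k hk
      rw [hRr s] at hk
      rw [hRr s, hRr (s - k)]
      exact hs2 s k hss2 hk

end Pool.Agent.Results.MP_65cef3_co.UpperWindow
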